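import Pool.Agent.Q197.TQ.Main

/-!
# The question in Cramér's random model, for every large `n`, with the right order

`A` is Cramér's random model of the primes: the events `m ∈ A`, `m ≥ 3`, are independent with the probabilities
`1 / log m`; `el S m` is the `m`-th element `≥ 3` of `S`, the model of the `m`-th prime. Almost surely, for every finite
set `D` of integers and all large `n` at least `n / (80 (3 log n) ^ (|D| + 1))` integers `k`, `1 ≤ k < n - 2`, have
`q = φ(k) + φ(n - k) / 2 + 1 ∈ A` and `a_q - q + h ∈ A` for all `h ∈ D`, where `a_q` is the element number `q`.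
The question is `D = {-1, 1}`.
-/

set_option autoImplicit false

namespace Pool.Agent.Results.MP_61a569_nt.CramerModelEveryN

open MeasureTheory Filter Pool.Agent.Q120.MF Pool.Agent.Q197.CI
open scoped Topology

/-- `q(n, k) = φ(k) + φ(n - k) / 2 + 1` -/
def q (n k : ℕ) : ℕ := Nat.totient k + Nat.totient (n - k) / 2 + 1

/-- `k` is admissible for `n` and the shifts `D`: the number `q = q n k` and all the numbers `a_q - q + h`, `h ∈ D`,
are elements `≥ 3` of `S` -/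
def Admissible (D : Finset ℤ) (S : Set ℕ) (n k : ℕ) : Prop :=
  (3 ≤ q n k ∧ q n k ∈ S) ∧ ∀ h ∈ D, ∃ a ∈ S, 3 ≤ a ∧ (a : ℤ) = el S (q n k) - q n k + h

/-- **Every large `n`.** -/
theorem result :
    (∃ (Ω : Type) (_ : MeasurableSpace Ω) (μ : Measure Ω) (A : Ω → Set ℕ), IsProbabilityMeasure μ ∧ IsCramer μ A) ∧
    ∀ (Ω : Type) [MeasurableSpace Ω] (μ : Measure Ω) [IsProbabilityMeasure μ] (A : Ω → Set ℕ), IsCramer μ A →
      ∀ᵐ ω ∂μ, ∀ D : Finset ℤ, ∀ᶠ n : ℕ in atTop,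
        (n : ℝ) / (80 * (3 * Real.log n) ^ (D.card + 1)) ≤
          ({k : ℕ | 1 ≤ k ∧ k + 2 < n ∧ Admissible D (A ω) n k}.ncard : ℝ) := by
  refine ⟨⟨_, _, cramerMeasure, cramerSet, inferInstance, isCramer⟩, ?_⟩
  intro Ω _ μ _ A hA
  filter_upwards [Q197.TQ.main hA] with ω h1 D
  filter_upwards [h1 D] with n h2
  refine h2.trans ?_
  have hfin : {k : ℕ | 1 ≤ k ∧ k + 2 < n ∧ Admissible D (A ω) n k}.Finite :=
    (Set.finite_Iio n).subset (fun k hk => by
      rw [Set.mem_Iio]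
      have := hk.2.1
      omega)
  have h3 : {k : ℕ | 1 ≤ k ∧ k + 2 < n ∧ Q197.TQ.GoodV D (Q197.IT.r3 A ω) (Q197.TQ.qv n k)} ⊆
      {k : ℕ | 1 ≤ k ∧ k + 2 < n ∧ Admissible D (A ω) n k} := by
    rintro k ⟨h4, h5, h6, h7⟩
    refine ⟨h4, h5, h6, fun h hh => ?_⟩
    have h8 := h7 h hh
    rw [Q197.TQ.el_r3] at h8
    refine ⟨_, h8.2, h8.1, ?_⟩
    have h9 : 3 ≤ ((el (A ω) (Q197.TQ.qv n k) : ℤ) - Q197.TQ.qv n k + h).toNat := h8.1
    show ((((el (A ω) (Q197.TQ.qv n k) : ℤ) - Q197.TQ.qv n k + h).toNat : ℕ) : ℤ) =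
      el (A ω) (Q197.TQ.qv n k) - Q197.TQ.qv n k + h
    omega
  exact_mod_cast Set.ncard_le_ncard h3 hfin

end Pool.Agent.Results.MP_61a569_nt.CramerModelEveryN
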