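import Pool.Agent.Q138.PS.UO
import Pool.Agent.Results.MP_61a569_nt.PositiveProportion

/-!
# A positive proportion of the integers `n = ⌊α P(m)⌋`

There is `κ > 0` with the following property. Let `s ≥ 2`. Outside a set of real numbers of Hausdorff dimension at most
`s / (s + 1 / (s 2 ^ (s - 1)))` (that is `8 / 9` for `s = 2`) every `α > 0` has an `η > 0` such that for ALL integral polynomials
`P` of degree `s` with positive leading coefficient and coefficients of size at most `N ^ η`, for at least `κ N` of the `m ≤ N`,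
`n = ⌊α P(m)⌋` is at least `32` and there are at least `n / (log n) ^ 14` integers `k`, `1 ≤ k < n - 2`, for which
`q = φ(k) + φ(n - k) / 2 + 1` is prime, while each of `p_q - q - 1` and `p_q - q + 1` has at most `(log n) ^ 11` divisors.
-/

set_option autoImplicit false

namespace Pool.Agent.Results.MP_61a569_nt.ProportionAlongRealMultiples

open Finset Filter Topology
open Pool.Agent.Q138.PS
open Pool.Agent.Results.MP_61a569_nt.PositiveProportion (goodK)

/-- `n ≥ 32` has at least `n / (log n) ^ 14` good `k` -/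
def Good (n : ℕ) : Prop := 32 ≤ n ∧ (n : ℝ) / Real.log n ^ 14 ≤ ((goodK n).ncard : ℝ)

open Classical in
/-- the number of the `1 ≤ m ≤ N` for which `⌊α P(m)⌋` is `Good` -/
noncomputable def count (α : ℝ) (P : Polynomial ℤ) (N : ℕ) : ℕ :=
  ((Icc 1 N).filter fun m : ℕ => Good ⌊α * ((P.eval (m : ℤ) : ℤ) : ℝ)⌋₊).card

theorem count_eq (α : ℝ) (P : Polynomial ℤ) (N : ℕ) : (count α P N : ℝ) = cnP Good α P N := by
  classical
  unfold count cnP cn
  refine congrArg _ (congrArg _ ?_)
  ext n
  simp only [mem_filter]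

/-- **Theorem.** There is `κ > 0` such that for each `s ≥ 2` there is a set `E` of Hausdorff dimension at most
`s / (s + 1 / (s 2 ^ (s - 1)))` such that for each `α > 0` outside `E` there is `η > 0` with: for all large `N` and uniformly in
`P`, at least `κ N` of the numbers `⌊α P(m)⌋`, `m ≤ N`, are `Good`. -/
theorem result :
    ∃ κ : ℝ, 0 < κ ∧ ∀ s : ℕ, 2 ≤ s →
    ∃ E : Set ℝ, dimH E ≤ ENNReal.ofReal (s / (s + 1 / ((s : ℝ) * 2 ^ (s - 1)))) ∧ ∀ α : ℝ, 0 < α → α ∉ E →
      ∃ η : ℝ, 0 < η ∧ ∀ᶠ N : ℕ in atTop, ∀ P : Polynomial ℤ, P.natDegree = s → 0 < P.leadingCoeff →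
        (∀ j, |((P.coeff j : ℤ) : ℝ)| ≤ (N : ℝ) ^ η) → κ * N ≤ (count α P N : ℝ) := by
  classical
  obtain ⟨κ, hκ, h⟩ := Pool.Agent.Results.MP_61a569_nt.PositiveProportion.result
  refine ⟨κ / 2, by positivity, fun s hs => ?_⟩
  obtain ⟨E, hE, hg⟩ := low_pos (ι := Unit) s hs (fun _ => Good) (fun _ => κ) (fun _ => hκ) (by
    intro _
    filter_upwards [h] with y hy
    refine hy.trans ?_
    rw [cn_ncard]
    refine Nat.cast_le.2 (Set.ncard_le_ncard ?_ ((Set.finite_Iic y).subset fun n hn => hn.2.1))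
    rintro n ⟨h1, h2, h3⟩
    exact ⟨by omega, h2, h1, h3⟩)
  refine ⟨E, hE, fun α hα hαE => ?_⟩
  obtain ⟨η, hη, hN⟩ := hg α hα hαE ()
  refine ⟨η, hη, ?_⟩
  filter_upwards [hN] with N g P hdeg hlead hco
  rw [count_eq]
  exact g P hdeg hlead hco

end Pool.Agent.Results.MP_61a569_nt.ProportionAlongRealMultiples
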