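import Pool.Agent.Q138.PS.ZJ

/-!
# No small summands for almost all `n = ⌊α P(m)⌋`

There is `C` with the following property. Let `s ≥ 2`. Outside a set of real numbers of Hausdorff dimension at most
`s / (s + 1 / (s 2 ^ (s - 1)))` (that is `8 / 9` for `s = 2`) every `α > 0` has an `η > 0` such that for all large `N`, for ALL
integral polynomials `P` of degree `s` with positive leading coefficient and coefficients of size at most `N ^ η` and ALL
`K ≥ 1`: for all but `C K N (log log N) ^ 6 / log N` of the `m ≤ N`, with `n = ⌊α P(m)⌋`, every `k`, `1 ≤ k < n - 2`, for which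
`q(n, k) = φ(k) + φ(n - k) / 2 + 1` is prime satisfies `k > K` and `n - k > K`.
-/

set_option autoImplicit false

namespace Pool.Agent.Results.MP_61a569_nt.SummandsAlongRealMultiples

open Finset Filter Topology
open Pool.Agent.Q138.PS
open Pool.Agent.Results.MP_61a569_nt.SmallSummands (q)

/-- some `k`, `1 ≤ k < n - 2`, with `k ≤ K` or `n - k ≤ K` has `q(n, k)` prime -/
def Small (K n : ℕ) : Prop := ∃ k : ℕ, 1 ≤ k ∧ k + 2 < n ∧ (k ≤ K ∨ n - k ≤ K) ∧ (q n k).Prime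

open Classical in
/-- the number of the `1 ≤ m ≤ N` for which `Small K ⌊α P(m)⌋` -/
noncomputable def bad (K : ℕ) (α : ℝ) (P : Polynomial ℤ) (N : ℕ) : ℕ :=
  ((Icc 1 N).filter fun m : ℕ => Small K ⌊α * ((P.eval (m : ℤ) : ℤ) : ℝ)⌋₊).card

theorem bad_eq (K : ℕ) (α : ℝ) (P : Polynomial ℤ) (N : ℕ) : (bad K α P N : ℝ) = cnP (Small K) α P N := by
  classical
  unfold bad cnP cn
  refine congrArg _ (congrArg _ ?_)
  ext n
  simp only [mem_filter]

/-- **Theorem.** For almost all `m ≤ N` all primes `q(n, k)`, `n = ⌊α P(m)⌋`, have `k` and `n - k` larger than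
`log N / (log log N) ^ 7`; more precisely: -/
theorem result :
    ∃ C : ℝ, 0 < C ∧ ∀ s : ℕ, 2 ≤ s →
    ∃ E : Set ℝ, dimH E ≤ ENNReal.ofReal (s / (s + 1 / ((s : ℝ) * 2 ^ (s - 1)))) ∧ ∀ α : ℝ, 0 < α → α ∉ E →
      ∃ η : ℝ, 0 < η ∧ ∀ᶠ N : ℕ in atTop, ∀ P : Polynomial ℤ, P.natDegree = s → 0 < P.leadingCoeff →
        (∀ j, |((P.coeff j : ℤ) : ℝ)| ≤ (N : ℝ) ^ η) → ∀ K : ℕ, 1 ≤ K →
        (bad K α P N : ℝ) ≤ C * K * N * Real.log (Real.log N) ^ 6 / Real.log N := by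
  obtain ⟨C, hC, h⟩ := SmallS.rate Small (fun K n => Iff.rfl)
  refine ⟨20 * 2 ^ 6 * C, by positivity, fun s hs => ?_⟩
  obtain ⟨E, hE, hg⟩ := exc_mult s hs Small 6 C hC h
  refine ⟨E, hE, fun α hα hαE => ?_⟩
  obtain ⟨η, hη, hN⟩ := hg α hα hαE
  refine ⟨η, hη, ?_⟩
  filter_upwards [hN] with N g P hdeg hlead hco K hK
  rw [bad_eq]
  refine (g P hdeg hlead hco K hK).trans (le_of_eq ?_)
  ring

end Pool.Agent.Results.MP_61a569_nt.SummandsAlongRealMultiples
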