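import Pool.Agent.Q138.PS.ZJ
import Pool.Agent.Q138.PS.UO

/-!
# No small summands for all `n` near `θ λ_j`

Let `λ_j` be real numbers tending to infinity, `0 ≤ r_j ≤ λ_j` real numbers and `K_j` nonnegative integers such that
`∑ r_j K_j (log log λ_j) ^ 6 / log λ_j` converges. Then for almost all real `θ > 0` and all large `j`, for EVERY `n` with
`|n - θ λ_j| ≤ r_j`: every `k`, `1 ≤ k < n - 2`, for which `q(n, k) = φ(k) + φ(n - k) / 2 + 1` is prime satisfies `k > K_j` and
`n - k > K_j`.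
-/

set_option autoImplicit false

namespace Pool.Agent.Results.MP_61a569_nt.SummandsNearSequences

open Finset Filter MeasureTheory Topology
open Pool.Agent.Q138.PS
open Pool.Agent.Results.MP_61a569_nt.SmallSummands (q)

/-- some `k`, `1 ≤ k < n - 2`, with `k ≤ K` or `n - k ≤ K` has `q(n, k)` prime -/
def Sm (K n : ℕ) : Prop := ∃ k : ℕ, 1 ≤ k ∧ k + 2 < n ∧ (k ≤ K ∨ n - k ≤ K) ∧ (q n k).Prime

theorem count_le : ∃ C : ℝ, 0 < C ∧ ∀ k : ℕ, ∀ᶠ l : ℝ in atTop, ∀ K : ℕ,
    ({n : ℕ | 1 ≤ n ∧ n ≤ ⌊((k : ℝ) + 1) * l⌋₊ ∧ Sm K n}.ncard : ℝ) ≤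
      C * (k + 1) * (l * (K * Real.log (Real.log l) ^ 6 / Real.log l)) := by
  classical
  obtain ⟨C, hC, h⟩ := SmallS.rate Sm (fun K n => Iff.rfl)
  refine ⟨128 * C, by positivity, fun k => ?_⟩
  have hlog : Tendsto (fun l : ℝ => Real.log (Real.log l)) atTop atTop := Real.tendsto_log_atTop.comp Real.tendsto_log_atTop
  filter_upwards [eventually_ge_atTop ((k : ℝ) + 32), hlog.eventually_ge_atTop 1] with l hl hll K
  have hk0 : (0 : ℝ) ≤ k := Nat.cast_nonneg k
  have hl0 : 0 < l := by linarith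
  have hlog0 : 0 < Real.log l := Real.log_pos (by linarith)
  rcases Nat.eq_zero_or_pos K with hK | hK
  · subst hK
    have : {n : ℕ | 1 ≤ n ∧ n ≤ ⌊((k : ℝ) + 1) * l⌋₊ ∧ Sm 0 n} = ∅ := by
      ext n
      rw [Set.mem_ofPred_eq, Set.mem_empty_iff_false, iff_false]
      rintro ⟨-, -, a, h1, h2, h3, -⟩
      omega
    rw [this, Set.ncard_empty]
    simp
  obtain ⟨x, hx⟩ : ∃ x : ℕ, x = ⌊((k : ℝ) + 1) * l⌋₊ := ⟨_, rfl⟩
  rw [← hx]
  have hxle : (x : ℝ) ≤ (k + 1) * l := by
    rw [hx]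
    exact Nat.floor_le (by positivity)
  have hxge : l / 2 ≤ x := by
    have h1 := Nat.lt_floor_add_one (((k : ℝ) + 1) * l)
    rw [← hx] at h1
    nlinarith
  have hx16r : (16 : ℝ) ≤ x := by linarith
  have hx16 : 16 ≤ x := by exact_mod_cast hx16r
  have hl4 : (4 : ℝ) ≤ l := by linarith
  have hlx : Real.log l / 2 ≤ Real.log x := by
    have h1 : Real.log √l ≤ Real.log x := by
      refine Real.log_le_log (Real.sqrt_pos.2 hl0) (le_trans ?_ hxge)
      rw [Real.sqrt_le_left (by positivity)]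
      nlinarith
    rwa [Real.log_sqrt hl0.le] at h1
  have hlx0 : 0 < Real.log x := by linarith
  have hlx2 : Real.log x ≤ 2 * Real.log l := by
    have h1 : Real.log x ≤ Real.log (l * l) := by
      refine Real.log_le_log (by linarith) (hxle.trans ?_)
      gcongr
      linarith
    rw [Real.log_mul hl0.ne' hl0.ne'] at h1
    linarith
  have hllx : Real.log (Real.log x) ≤ 2 * Real.log (Real.log l) := by
    have h1 := Real.log_le_log hlx0 hlx2
    rw [Real.log_mul two_ne_zero hlog0.ne'] at h1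
    have h2 := Real.log_two_lt_d9
    linarith
  have hllx0 : 0 ≤ Real.log (Real.log x) := by
    refine Real.log_nonneg ?_
    have h2 : Real.log 16 = 4 * Real.log 2 := by
      rw [show (16 : ℝ) = 2 ^ 4 by norm_num, Real.log_pow]
      norm_num
    have h3 := Real.log_two_gt_d9
    have h4 := Real.log_le_log (by norm_num) hx16r
    linarith
  have h5 := h K hK x hx16
  rw [cn_ncard] at h5
  refine h5.trans ?_
  have hKr : (0 : ℝ) < K := by exact_mod_cast hK
  calc C * K * Real.log (Real.log x) ^ 6 / Real.log x * x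
      ≤ C * K * (2 * Real.log (Real.log l)) ^ 6 / (Real.log l / 2) * ((k + 1) * l) := by gcongr
    _ = 128 * C * (k + 1) * (l * (K * Real.log (Real.log l) ^ 6 / Real.log l)) := by
      field_simp
      ring

/-- **Theorem.** -/
theorem result (l r : ℕ → ℝ) (K : ℕ → ℕ) (hl : Tendsto l atTop atTop) (hr0 : ∀ᶠ j in atTop, 0 ≤ r j)
    (hr : ∀ᶠ j in atTop, r j ≤ l j)
    (hsum : Summable fun j : ℕ => r j * (K j * Real.log (Real.log (l j)) ^ 6 / Real.log (l j))) :
    ∀ᵐ θ : ℝ, 0 < θ → ∀ᶠ j : ℕ in atTop, ∀ n : ℕ, |(n : ℝ) - θ * l j| ≤ r j →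
      ∀ k : ℕ, 1 ≤ k → k < n - 2 → (q n k).Prime → K j < k ∧ K j < n - k := by
  obtain ⟨C, hC, h⟩ := count_le
  have h1 := seq_bc (fun j n => Sm (K j) n) l r (fun j => K j * Real.log (Real.log (l j)) ^ 6 / Real.log (l j))
    (hl.eventually_ge_atTop 1) hr0 hr (fun k => ⟨C * (k + 1), (hl.eventually (h k)).mono fun j hj => hj (K j)⟩) hsum
  filter_upwards [h1] with θ hθ h0
  filter_upwards [hθ h0] with j hj n hn k hk1 hk2 hq
  have h2 := hj n (by omega) hn
  by_contra h3
  exact h2 ⟨k, hk1, by omega, by omega, hq⟩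

end Pool.Agent.Results.MP_61a569_nt.SummandsNearSequences
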